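import Pool.Agent.H500.HC.Stm

set_option autoImplicit false
set_option linter.unusedSectionVars false

/-!
# HC-DensF: Kummer density over a number field (helper215, for project HC of helper500)

After `Pool/Agent/H500/KumDens.lean`.
-/

namespace Pool.Agent.H215.HC.DensF

open NumberField IsDedekindDomain Filter Topology
open Pool.Agent.W401.Cheb (GK IsFrob dens)
open Pool.Agent.W569.FM (OO GF)
open Pool.Agent.H500.Kum (val_add val_mul exists_pow pow_unique exists_root exists_prim algMap_ne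
  smul_alg fixed exists_R dens_fin fin_mem cyc_surj exists_idem)
open Pool.Agent.H500.KumI (AffI KJ descent' exists_KJ)
open Pool.Agent.H500.HC

section one

variable {E : Type} [Field E] [NumberField E] {r : ℕ} [hr : Fact r.Prime] {ι : Type} [Fintype ι]

/-- every vector is a value of the Kummer cocycle -/
theorem kap_surj (D : KJ ι E r)
    (hind : ∀ x : ι → ZMod r, (∃ ε : 𝓞 E, ε ^ r = ∏ i, D.c i ^ (x i).val) → x = 0)
    (x : ι → ZMod r) : ∃ g, D.chi g = 1 ∧ D.kap g = x := by
  classical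
  have : NeZero r := ⟨hr.out.ne_zero⟩
  have hpow : ∀ g, D.chi g = 1 → ∀ n : ℕ, D.chi (g ^ n) = 1 ∧ D.kap (g ^ n) = (n : ZMod r) • D.kap g := by
    intro g hg n
    induction n with
    | zero =>
      refine ⟨by rw [pow_zero, D.chi_one], ?_⟩
      funext i
      rw [pow_zero, Nat.cast_zero, zero_smul]
      apply D.kap_unique
      rw [one_smul, Pi.zero_apply, ZMod.val_zero, pow_zero, one_mul]
    | succ n ih =>
      refine ⟨by rw [pow_succ, D.chi_mul, ih.1, hg, one_mul], ?_⟩
      funext i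
      rw [pow_succ, D.kap_mul, ih.1, ih.2, one_mul, Nat.cast_succ, add_smul, one_smul]
      rfl
  let V : Submodule (ZMod r) (ι → ZMod r) :=
    { carrier := {x | ∃ g, D.chi g = 1 ∧ D.kap g = x}
      zero_mem' := ⟨1, D.chi_one, by
        funext i
        apply D.kap_unique
        rw [one_smul, Pi.zero_apply, ZMod.val_zero, pow_zero, one_mul]⟩
      add_mem' := by
        rintro _ _ ⟨g, hg, rfl⟩ ⟨h, hh, rfl⟩
        refine ⟨g * h, by rw [D.chi_mul, hg, hh, one_mul], ?_⟩
        funext i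
        rw [D.kap_mul, hg, one_mul]
        rfl
      smul_mem' := by
        rintro c _ ⟨g, hg, rfl⟩
        obtain ⟨h1, h2⟩ := hpow g hg c.val
        refine ⟨g ^ c.val, h1, ?_⟩
        rw [h2, ZMod.natCast_zmod_val] }
  have hV : V = ⊤ := by
    by_contra hne
    obtain ⟨f, hf0, hf⟩ := Submodule.exists_le_ker_of_lt_top V (lt_top_iff_ne_top.2 hne)
    set x : ι → ZMod r := fun i => f (Pi.single i 1) with hx
    have hfx : ∀ w : ι → ZMod r, f w = ∑ i, x i * w i := by
      intro w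
      conv_lhs => rw [← Finset.univ_sum_single w]
      rw [map_sum]
      refine Finset.sum_congr rfl fun i _ => ?_
      have h1 : (Pi.single i (w i) : ι → ZMod r) = (w i) • (Pi.single i 1 : ι → ZMod r) := by
        rw [← Pi.single_smul, smul_eq_mul, mul_one]
      rw [h1, map_smul, smul_eq_mul, mul_comm]
    have hδ : ∏ i, D.y i ^ (x i).val ≠ 0 :=
      Finset.prod_ne_zero_iff.2 fun i _ => pow_ne_zero _ (D.y_ne i)
    have hact : ∀ g, g • ∏ i, D.y i ^ (x i).val =
        D.z ^ (f (D.kap g)).val * ∏ i, D.y i ^ (x i).val := by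
      intro g
      rw [hfx]
      have h1 : ∀ s : Finset ι, g • ∏ i ∈ s, D.y i ^ (x i).val =
          D.z ^ (∑ i ∈ s, x i * D.kap g i).val * ∏ i ∈ s, D.y i ^ (x i).val := by
        intro s
        induction s using Finset.induction_on with
        | empty => simp
        | insert i s hi ih =>
          rw [Finset.prod_insert hi, Finset.sum_insert hi, smul_mul', ih, smul_pow', D.smul_y,
            mul_pow, val_add D.z_pow, mul_comm (x i), val_mul D.z_pow]
          ring
      exact h1 Finset.univ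
    obtain ⟨ε, hε⟩ := descent' D hδ (fun g => f (D.kap g)) hact (by
      intro g hg
      exact hf ⟨g, hg, rfl⟩)
    have h2 := hind x ⟨ε, by
      apply Pool.Agent.H500.Kum.algMap_inj
      rw [hε, ← Finset.prod_pow, map_prod]
      refine Finset.prod_congr rfl fun i _ => ?_
      rw [← pow_mul, mul_comm, pow_mul, D.hy, map_pow]⟩
    apply hf0
    apply LinearMap.ext
    intro w
    rw [hfx, h2]
    simp
  have : x ∈ V := by rw [hV]; trivial
  exact this

/-- the analysis at one prime -/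
theorem at_frob (D : KJ ι E r) {v : HeightOneSpectrum (𝓞 E)} {σ : GF E} (hσ : IsFrob v σ)
    (hrv : (r : 𝓞 E) ∉ v.asIdeal) (hc : ∀ i, D.c i ∉ v.asIdeal) (hchi : D.chi σ = 1) :
    ∃ m : ℕ, r * m + 1 = Ideal.absNorm v.asIdeal ∧ ∃ Q : Ideal (OO E), Q.IsMaximal ∧
      Q.comap (algebraMap (𝓞 E) (OO E)) = v.asIdeal ∧
      ∀ i, algebraMap (𝓞 E) (OO E) (D.c i) ^ m - D.z ^ (D.kap σ i).val ∈ Q := by
  obtain ⟨P, hPm, hPv, hP⟩ := hσ
  have hPp := hPm.isPrime
  have hmem : ∀ x : 𝓞 E, algebraMap (𝓞 E) (OO E) x ∈ P ↔ x ∈ v.asIdeal := by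
    intro x
    rw [← hPv, Ideal.mem_comap]
  have hrP : (r : OO E) ∉ P := by
    rw [← map_natCast (algebraMap (𝓞 E) (OO E)), hmem]
    exact hrv
  set q := Ideal.absNorm v.asIdeal with hq
  have hq1 : 1 ≤ q := by
    rw [Nat.one_le_iff_ne_zero, hq, Ne, Ideal.absNorm_eq_zero_iff]
    exact v.ne_bot
  have hroot : ∀ s t : ℕ, D.z ^ s - D.z ^ t ∈ P → (s : ZMod r) = t := by
    intro s t hst
    have e : D.z ^ s = D.z ^ t := by
      refine Pool.Agent.Y115.Chi.root_eq (P := P) (l := r) hrP ?_ ?_ hst hr.out.ne_zero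
      · rw [← pow_mul, mul_comm, pow_mul, D.z_pow, one_pow]
      · rw [← pow_mul, mul_comm, pow_mul, D.z_pow, one_pow]
    rw [ZMod.natCast_eq_natCast_iff]
    have e1 : D.z ^ (s : ZMod r).val * 1 = D.z ^ (t : ZMod r).val * 1 := by
      rw [mul_one, mul_one, ZMod.val_natCast, ZMod.val_natCast, ← pow_eq_pow_mod _ D.z_pow,
        ← pow_eq_pow_mod _ D.z_pow]
      exact e
    have e2 := pow_unique D.hz one_ne_zero e1
    rwa [ZMod.natCast_eq_natCast_iff] at e2
  have hzP : D.z ∉ P := by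
    intro h
    apply hPp.ne_top
    rw [Ideal.eq_top_iff_one, ← D.z_pow]
    exact Ideal.pow_mem_of_mem P h r hr.out.pos
  obtain ⟨m, hm⟩ : r ∣ q - 1 := by
    have e := hP D.z
    rw [D.smul_z, hchi, ZMod.val_one, pow_one] at e
    have e1 : D.z ^ 0 - D.z ^ (q - 1) ∈ P := by
      have e2 : D.z - D.z ^ q = D.z * (D.z ^ 0 - D.z ^ (q - 1)) := by
        rw [mul_sub, pow_zero, mul_one, ← pow_succ', Nat.sub_add_cancel hq1]
      rw [e2] at e
      exact (hPp.mem_or_mem e).resolve_left hzP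
    have e3 := hroot 0 (q - 1) e1
    rw [Nat.cast_zero] at e3
    exact (ZMod.natCast_eq_zero_iff _ _).1 e3.symm
  refine ⟨m, by omega, P, hPm, hPv, fun i => ?_⟩
  have e := hP (D.y i)
  have hyP : D.y i ∉ P := by
    intro h
    apply hc i
    rw [← hmem, ← D.hy]
    exact Ideal.pow_mem_of_mem P h r hr.out.pos
  rw [D.smul_y] at e
  have e1 : D.z ^ (D.kap σ i).val * D.y i - D.y i ^ q =
      D.y i * (D.z ^ (D.kap σ i).val - algebraMap (𝓞 E) (OO E) (D.c i) ^ m) := by
    rw [← D.hy, ← pow_mul, ← hm, mul_sub, ← pow_succ', Nat.sub_add_cancel hq1, mul_comm]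
  rw [e1] at e
  have e2 := (hPp.mem_or_mem e).resolve_left hyP
  rw [← neg_sub]
  exact P.neg_mem e2

end one

/-- the cyclotomic characters are jointly surjective -/
theorem chi_surj {E I ι : Type} [Field E] [NumberField E] [Fintype I] [Fintype ι] (r : I → ℕ)
    [hr : ∀ i, Fact (r i).Prime] (hinj : Function.Injective r)
    (hdis : ∀ i, ¬ (r i : ℤ) ∣ discr E) (D : ∀ i, KJ ι E (r i)) (t : (i : I) → (ZMod (r i))ˣ) :
    ∃ g : GF E, ∀ i, ((D i).Phi g).a = t i := by
  classical
  choose e he1 he2 using exists_idem r hinj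
  set a : ℕ := ∑ i, e i * (t i : ZMod (r i)).val with ha
  have hai : ∀ i, (a : ZMod (r i)) = t i := by
    intro i
    rw [ha]
    push_cast
    rw [Finset.sum_eq_single i]
    · rw [he1, one_mul, ZMod.natCast_zmod_val]
    · intro j _ hj
      rw [he2 j i hj.symm, zero_mul]
    · intro h
      exact absurd (Finset.mem_univ i) h
  set M : ℕ := ∏ i, r i with hM
  have hM0 : 0 < M := Finset.prod_pos fun i _ => (hr i).out.pos
  have hcop : IsCoprime (M : ℤ) (discr E) := by
    rw [hM]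
    push_cast
    apply IsCoprime.prod_left
    intro i _
    exact (Prime.coprime_iff_not_dvd (Nat.prime_iff_prime_int.1 (hr i).out)).2 (hdis i)
  have haM : a.Coprime M := by
    rw [hM]
    apply Nat.Coprime.prod_right
    intro i _
    rw [Nat.coprime_comm, (hr i).out.coprime_iff_not_dvd, ← ZMod.natCast_eq_zero_iff, hai]
    exact (t i).ne_zero
  obtain ⟨g, hg⟩ := cyc_surj hM0 hcop haM
  refine ⟨g, fun i => ?_⟩
  apply Units.ext
  show (D i).chi g = t i
  apply (D i).chi_unique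
  apply RingOfIntegers.ext
  have hzM : ((D i).z : AlgebraicClosure E) ^ M = 1 := by
    obtain ⟨k, hk⟩ : r i ∣ M := Finset.dvd_prod_of_mem _ (Finset.mem_univ i)
    rw [hk, pow_mul]
    have h1 : ((D i).z : AlgebraicClosure E) ^ r i = 1 := by
      have := congrArg (fun w : OO E => (w : AlgebraicClosure E)) (D i).z_pow
      simpa using this
    rw [h1, one_pow]
  have h2 := hg _ hzM
  have h3 : ((D i).z) ^ (t i : ZMod (r i)).val = (D i).z ^ a := by
    rw [← hai i, ZMod.val_natCast]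
    exact (pow_eq_pow_mod _ (D i).z_pow).symm
  rw [h3]
  rw [Pool.Agent.W401.Frob.coe_smul]
  rw [h2]
  simp

/-- the part of `B` which is invariant under the homotheties -/
def BB {ι : Type} {r : ℕ} (B : Set (ι → ZMod r)) : Set (ι → ZMod r) :=
  {x | ∀ c : (ZMod r)ˣ, (c : ZMod r) • x ∈ B}

theorem BB_smul {ι : Type} {r : ℕ} {B : Set (ι → ZMod r)} {x : ι → ZMod r} (hx : x ∈ BB B)
    (c : (ZMod r)ˣ) : (c : ZMod r) • x ∈ BB B := by
  intro d
  rw [smul_smul, ← Units.val_mul]
  exact hx (d * c)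

theorem BB_card {ι : Type} [Fintype ι] {r : ℕ} [hr : Fact r.Prime] {B : Set (ι → ZMod r)} {N : ℕ}
    (h : 2 * B.ncard ≤ N) : 2 * (BB B).ncard ≤ N := by
  have : NeZero r := ⟨hr.out.ne_zero⟩
  have h1 : BB B ⊆ B := by
    intro x hx
    have := hx 1
    rwa [Units.val_one, one_smul] at this
  have h2 := Set.ncard_le_ncard h1 (Set.toFinite B)
  omega

theorem main : S_Ratio → S_DensF := by
  intro hratio F ι _ _ _ b r0 B hb hind hB P hP
  classical
  rw [Metric.tendsto_atTop]
  intro ε hε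
  set m := r0 + (discr F).natAbs + 2 with hm
  obtain ⟨R, hR, hRε⟩ := exists_R m (half_pos hε)
  set r : R → ℕ := fun i => i.1 with hrdef
  have hrp : ∀ i, Fact (r i).Prime := fun i => ⟨(hR i.1 i.2).1⟩
  have hrm : ∀ i, m < r i := fun i => (hR i.1 i.2).2
  have hinj : Function.Injective r := Subtype.coe_injective
  have hD : ∀ i, ∃ D : KJ ι F (r i), D.c = b := fun i => exists_KJ b hb
  choose D hDc using hD
  have hdis : ∀ i, ¬ (r i : ℤ) ∣ discr F := by
    intro i h
    have h1 := Int.natAbs_dvd_natAbs.2 h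
    rw [Int.natAbs_natCast] at h1
    have h2 : 0 < (discr F).natAbs := Int.natAbs_pos.2 (discr_ne_zero F)
    have h3 := Nat.le_of_dvd h2 h1
    have := hrm i
    omega
  have hχ := fun t => chi_surj r hinj hdis D t
  set Φ : ∀ i, GF F →* AffI ι (r i) := fun i => (D i).Phi with hΦ
  set U := (MonoidHom.pi Φ).ker with hU
  have hUopen : IsOpen (U : Set (GF F)) := by
    have h1 : (U : Set (GF F)) = ⋂ i, ((Φ i).ker : Set (GF F)) := by
      ext g
      rw [Set.mem_iInter]
      constructor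
      · intro h i
        exact congrFun h i
      · intro h
        funext i
        exact h i
    rw [h1]
    exact isOpen_iInter_of_finite fun i => (D i).isOpen_ker
  set C : Set (GF F) := {g | ∀ i, (Φ i g).a = 1 → (Φ i g).x ∈ BB (B (r i))} with hC
  have hlim := Pool.Agent.W528.Ord.chebK F U hUopen C (by
    intro σ hσ τ i ha
    rw [map_mul, map_mul, map_inv] at ha ⊢
    have h4 : (Φ i σ).a = 1 := by
      rw [AffI.mul_a, AffI.mul_a, AffI.inv_a, mul_comm (Φ i τ).a, mul_inv_cancel_right] at ha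
      exact ha
    have h5 : (Φ i τ * Φ i σ * (Φ i τ)⁻¹).x = ((Φ i τ).a : ZMod (r i)) • (Φ i σ).x := by
      rw [AffI.mul_x, AffI.mul_x, AffI.mul_a, AffI.inv_x, h4, mul_one, smul_neg, smul_smul,
        Units.mul_inv, one_smul]
      abel
    rw [h5]
    exact BB_smul (hσ i h4) _) (by
    intro σ hσ u hu i
    rw [map_mul]
    have h1 : Φ i u = 1 := congrFun hu i
    rw [h1, mul_one]
    exact hσ i)
  have hle := hratio R ι r (GF F) Φ (fun i => BB (B (r i))) hinj
    (fun i => by have := hrm i; omega) hχ (by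
      intro i x
      obtain ⟨g, hg1, hg2⟩ := kap_surj (D i) (by
        rw [hDc]
        exact hind (r i) (hrp i).out (by have := hrm i; omega)) x
      exact ⟨g, Units.ext hg1, hg2⟩) (fun i => BB_card (hB (r i) (hrp i).out (by
        have := hrm i; omega)))
  have hprod : ∏ i, (1 - 1 / (2 * (r i : ℝ))) ≤ ∏ x ∈ R, (1 - 1 / (3 * (x : ℝ))) := by
    rw [← Finset.prod_coe_sort R (fun x => 1 - 1 / (3 * (x : ℝ)))]
    refine Finset.prod_le_prod (fun i _ => ?_) fun i _ => ?_
    · have h3 : (1 : ℝ) ≤ r i := by exact_mod_cast (hrp i).out.one_le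
      have h4 : 1 / (2 * (r i : ℝ)) ≤ 1 := by
        rw [div_le_one (by linarith)]
        linarith
      linarith
    · have h3 : (1 : ℝ) ≤ r i := by exact_mod_cast (hrp i).out.one_le
      have h4 : 1 / (3 * (r i : ℝ)) ≤ 1 / (2 * (r i : ℝ)) := by
        apply one_div_le_one_div_of_le <;> linarith
      have h5 : (r i : ℝ) = ((i : ℕ) : ℝ) := rfl
      rw [h5] at h4 ⊢
      linarith
  -- the exceptional primes
  set X : HeightOneSpectrum (𝓞 F) → Prop := fun v => (∃ i : R, ((r i : ℕ) : 𝓞 F) ∈ v.asIdeal) ∨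
    ∃ i, b i ∈ v.asIdeal with hX
  have hXfin : {v | X v}.Finite := by
    have h1 : {v | X v} = (⋃ i : R, {v : HeightOneSpectrum (𝓞 F) | ((r i : ℕ) : 𝓞 F) ∈ v.asIdeal}) ∪
        ⋃ i, {v : HeightOneSpectrum (𝓞 F) | b i ∈ v.asIdeal} := by
      ext v
      simp only [hX, Set.mem_union, Set.mem_iUnion, Set.mem_ofPred_eq]
    rw [h1]
    exact (Set.finite_iUnion fun i => fin_mem (Nat.cast_ne_zero.2 (hrp i).out.ne_zero)).union
      (Set.finite_iUnion fun i => fin_mem (hb i))
  have hXd := dens_fin X hXfin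
  have hsub : ∀ v, P v → (∃ σ ∈ C, IsFrob v σ) ∨ X v := by
    intro v hv
    by_cases hXv : X v
    · exact Or.inr hXv
    · left
      rw [hX] at hXv
      push Not at hXv
      obtain ⟨hX1, hX2⟩ := hXv
      obtain ⟨σ, hσ⟩ := Pool.Agent.W401.Frob.exists_frob v
      refine ⟨σ, fun i ha => ?_, hσ⟩
      have hchi : (D i).chi σ = 1 := congrArg Units.val ha
      obtain ⟨n, hn, Q, hQm, hQv, hQ⟩ := at_frob (D i) hσ (hX1 i) (fun j => by
        rw [hDc]; exact hX2 j) hchi
      intro c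
      have hz' : IsPrimitiveRoot ((D i).z ^ ((c⁻¹ : (ZMod (r i))ˣ) : ZMod (r i)).val) (r i) := by
        apply (D i).hz.pow_of_coprime
        exact ZMod.val_coe_unit_coprime c⁻¹
      refine hP v hv (r i) (hrp i).out (by have := hrm i; omega) (hX1 i) hX2 n hn Q hQm hQv _ hz'
        ((c : ZMod (r i)) • (Φ i σ).x) fun j => ?_
      have e1 : ((D i).z ^ ((c⁻¹ : (ZMod (r i))ˣ) : ZMod (r i)).val) ^
          (((c : ZMod (r i)) • (Φ i σ).x) j).val = (D i).z ^ ((D i).kap σ j).val := by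
        rw [← val_mul (D i).z_pow]
        congr 2
        show ((c⁻¹ : (ZMod (r i))ˣ) : ZMod (r i)) * ((c : ZMod (r i)) * (D i).kap σ j) = _
        rw [← mul_assoc, Units.inv_mul, one_mul]
      rw [e1]
      have e2 := hQ j
      rwa [hDc] at e2
  have hsum := hlim.add hXd
  rw [add_zero] at hsum
  have hlt : (((QuotientGroup.mk : GK F → GK F ⧸ U) '' C).ncard : ℝ) /
      (Nat.card (GK F ⧸ U) : ℝ) < ε := by
    calc _ ≤ ∏ i, (1 - 1 / (2 * (r i : ℝ))) := hle
      _ ≤ ∏ x ∈ R, (1 - 1 / (3 * (x : ℝ))) := hprod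
      _ < ε / 2 := hRε
      _ < ε := by linarith
  have hev := hsum.eventually (gt_mem_nhds hlt)
  rw [eventually_atTop] at hev
  obtain ⟨N0, hN0⟩ := hev
  refine ⟨N0, fun N hN => ?_⟩
  rw [Real.dist_eq, sub_zero, abs_of_nonneg (Pool.Agent.W528.Ord.dens_nonneg _ _)]
  calc dens P N ≤ dens (fun v => (∃ σ ∈ C, IsFrob v σ) ∨ X v) N :=
        Pool.Agent.W528.Ord.dens_mono hsub N
    _ ≤ _ := Pool.Agent.W528.Ord.dens_or _ _ N
    _ < ε := hN0 N hN

end Pool.Agent.H215.HC.DensF
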